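import Pool.Agent.V11227.SC2

/-!
# Split clique graphs with a bounded stable side are recognised in polynomial time

A split graph with `|S| ≤ k` has at most `k + 2 ^ k` classes of true twins.  Replacing a vertex of a
clique graph by several true twins gives a clique graph again (by the theorem of Roberts and
Spencer), so for a fixed pattern of classes the vectors of class sizes which give clique graphs form
an upward closed set.  By Dickson's lemma it has finitely many minimal elements.  So for fixed `k`
there is a finite list of graphs such that a split graph `G` with `|S| ≤ k` is a clique graph iff it
contains a graph of the list as an induced subgraph in such a way that all vertices of `G` are true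
twins of vertices of the copy (or lie in it); this can be tested in polynomial time.
-/

namespace Pool.Agent.Results.MP_4c1bf1_lc.BoundedStableSideInP

open Pool.Agent.NPC Pool.Agent.V11227.SC

/-- For every fixed `k` there is a polynomial-time algorithm which decides whether a given matrix
is the adjacency matrix of a split graph with `|S| ≤ k` that is a clique graph. -/
theorem result : ∀ k : ℕ, InPP (RecS k) := inPP_recS

end Pool.Agent.Results.MP_4c1bf1_lc.BoundedStableSideInP
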